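import Pool.Agent.Y957.AD.Basic
import Pool.Agent.H376R2.MR.Sel

/-!
Selberg's sieve with a nonnegative weight of the form `‖∑ c_t n^{it}‖ ^ 2` (helper884, for AD).
-/

set_option autoImplicit false

namespace Pool.Agent.Y884.AD

open Finset MeasureTheory Filter
open Pool.Agent.H376R2.MR (er cell PP mm nint WW sel_aux_lcm sel_aux_int sel_weights)
open Pool.Agent.Y957.AD

/-- the sieve with an arbitrary nonnegative weight -/
theorem sel_gen (H v D : ℕ) (l : ℕ → ℝ) (hl1 : l 1 = 1) (hl : ∀ d, |l d| ≤ 1) (hD1 : 1 ≤ D)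
    (hcell : ∀ p ∈ cell H v, D < p) (F : ℕ → ℝ) (hF : ∀ n, 0 ≤ F n) (ρ E : ℝ) (hE : 0 ≤ E)
    (herr : ∀ q : ℕ, 1 ≤ q → q ≤ D ^ 2 →
      |(∑ n ∈ (nint H v).filter (fun n => q ∣ n), F n / (n : ℝ)) - ρ / q| ≤ E * (1 / q)) :
    ∑ p ∈ cell H v, F p / (p : ℝ) ≤
      ρ * (∑ d ∈ Icc 1 D, ∑ e ∈ Icc 1 D, l d * l e / (Nat.lcm d e : ℝ)) +
        E * (1 + Real.log D) ^ 3 := by
  classical
  obtain ⟨X, hX⟩ : ∃ X : ℕ → ℝ, X = fun q => ∑ n ∈ (nint H v).filter (fun n => q ∣ n),
    F n / (n : ℝ) := ⟨_, rfl⟩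
  have hstep1 : ∑ p ∈ cell H v, F p / (p : ℝ) ≤
      ∑ n ∈ nint H v, (∑ d ∈ Icc 1 D, if d ∣ n then l d else 0) ^ 2 * (F n / (n : ℝ)) := by
    have hsub : cell H v ⊆ nint H v := by
      intro p hp
      unfold cell at hp
      unfold nint
      rw [Finset.mem_filter] at hp ⊢
      exact ⟨hp.1, hp.2.2⟩
    have h1 : ∑ p ∈ cell H v, F p / (p : ℝ) =
        ∑ n ∈ cell H v, (∑ d ∈ Icc 1 D, if d ∣ n then l d else 0) ^ 2 * (F n / (n : ℝ)) := by
      refine Finset.sum_congr rfl (fun p hp => ?_)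
      have hpp : p.Prime := by
        unfold cell at hp
        rw [Finset.mem_filter] at hp
        exact hp.2.1
      have h2 : (∑ d ∈ Icc 1 D, if d ∣ p then l d else 0) = 1 := by
        rw [Finset.sum_eq_single 1]
        · simp [hl1]
        · intro d hd hd1
          rw [Finset.mem_Icc] at hd
          have hnd : ¬ d ∣ p := by
            intro hdp
            rcases (Nat.dvd_prime hpp).1 hdp with h | h
            · exact hd1 h
            · have := hcell p hp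
              omega
          rw [if_neg hnd]
        · intro h
          exact absurd (Finset.mem_Icc.2 ⟨le_refl 1, hD1⟩) h
      rw [h2]
      ring
    rw [h1]
    refine Finset.sum_le_sum_of_subset_of_nonneg hsub (fun n _ _ => ?_)
    exact mul_nonneg (sq_nonneg _) (div_nonneg (hF _) (Nat.cast_nonneg _))
  have hstep2 : ∑ n ∈ nint H v, (∑ d ∈ Icc 1 D, if d ∣ n then l d else 0) ^ 2 *
        (F n / (n : ℝ)) =
      ∑ d ∈ Icc 1 D, ∑ e ∈ Icc 1 D, l d * l e * X (Nat.lcm d e) := by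
    have h1 : ∀ n ∈ nint H v, (∑ d ∈ Icc 1 D, if d ∣ n then l d else 0) ^ 2 *
        (F n / (n : ℝ)) = ∑ d ∈ Icc 1 D, ∑ e ∈ Icc 1 D,
          l d * l e * (if Nat.lcm d e ∣ n then F n / (n : ℝ) else 0) := by
      intro n _
      rw [sq, Finset.sum_mul_sum, Finset.sum_mul]
      refine Finset.sum_congr rfl (fun d _ => ?_)
      rw [Finset.sum_mul]
      refine Finset.sum_congr rfl (fun e _ => ?_)
      by_cases h1 : d ∣ n
      · by_cases h2 : e ∣ n
        · rw [if_pos h1, if_pos h2, if_pos (Nat.lcm_dvd h1 h2)]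
        · have h3 : ¬ Nat.lcm d e ∣ n := fun h => h2 (dvd_trans (Nat.dvd_lcm_right d e) h)
          rw [if_neg h2, if_neg h3]
          ring
      · have h3 : ¬ Nat.lcm d e ∣ n := fun h => h1 (dvd_trans (Nat.dvd_lcm_left d e) h)
        rw [if_neg h1, if_neg h3]
        ring
    rw [Finset.sum_congr rfl h1, Finset.sum_comm]
    refine Finset.sum_congr rfl (fun d _ => ?_)
    rw [Finset.sum_comm]
    refine Finset.sum_congr rfl (fun e _ => ?_)
    rw [← Finset.mul_sum, ← Finset.sum_filter, hX]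
  have hstep3 : ∑ d ∈ Icc 1 D, ∑ e ∈ Icc 1 D, l d * l e * X (Nat.lcm d e) ≤
      ρ * (∑ d ∈ Icc 1 D, ∑ e ∈ Icc 1 D, l d * l e / (Nat.lcm d e : ℝ)) +
      E * ∑ d ∈ Icc 1 D, ∑ e ∈ Icc 1 D, 1 / (Nat.lcm d e : ℝ) := by
    rw [Finset.mul_sum, Finset.mul_sum, ← Finset.sum_add_distrib]
    refine Finset.sum_le_sum (fun d hd => ?_)
    rw [Finset.mul_sum, Finset.mul_sum, ← Finset.sum_add_distrib]
    refine Finset.sum_le_sum (fun e he => ?_)
    rw [Finset.mem_Icc] at hd he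
    have hq1 : 1 ≤ Nat.lcm d e := Nat.lcm_pos (by omega) (by omega)
    have hq2 : Nat.lcm d e ≤ D ^ 2 := by
      refine le_trans (Nat.lcm_le_mul (by omega) (by omega)) ?_
      rw [sq]
      exact Nat.mul_le_mul hd.2 he.2
    have h1 := herr (Nat.lcm d e) hq1 hq2
    have hXl : (∑ n ∈ (nint H v).filter (fun n => Nat.lcm d e ∣ n), F n / (n : ℝ)) =
        X (Nat.lcm d e) := by rw [hX]
    rw [hXl] at h1
    have h2 : |l d * l e| ≤ 1 := by
      rw [abs_mul]
      exact mul_le_one₀ (hl d) (abs_nonneg _) (hl e)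
    have h3 : l d * l e * (X (Nat.lcm d e) - ρ / (Nat.lcm d e : ℝ)) ≤
        E * (1 / (Nat.lcm d e : ℝ)) := by
      refine le_trans (le_abs_self _) ?_
      rw [abs_mul]
      calc |l d * l e| * |X (Nat.lcm d e) - ρ / (Nat.lcm d e : ℝ)|
          ≤ 1 * |X (Nat.lcm d e) - ρ / (Nat.lcm d e : ℝ)| :=
            mul_le_mul_of_nonneg_right h2 (abs_nonneg _)
        _ ≤ _ := by rw [one_mul]; exact h1
    have h4 : l d * l e * X (Nat.lcm d e) =
        ρ * (l d * l e / (Nat.lcm d e : ℝ)) + l d * l e * (X (Nat.lcm d e) - ρ / (Nat.lcm d e : ℝ)) := by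
      ring
    rw [h4]
    linarith
  have hfin2 : E * ∑ d ∈ Icc 1 D, ∑ e ∈ Icc 1 D, 1 / (Nat.lcm d e : ℝ) ≤
      E * (1 + Real.log D) ^ 3 := mul_le_mul_of_nonneg_left (sel_aux_lcm D) hE
  linarith

theorem er_conj (t x : ℝ) : (starRingEnd ℂ) (er t x) = er (-t) x := by
  unfold er
  rw [← Complex.exp_conj, map_mul, Complex.conj_I, Complex.conj_ofReal]
  congr 1
  push_cast
  ring

theorem er_mul_conj (t t' x : ℝ) : er t x * (starRingEnd ℂ) (er t' x) = er (t - t') x := by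
  rw [er_conj]
  unfold er
  rw [← Complex.exp_add]
  congr 1
  push_cast
  ring

/-- the square of a sum of phases -/
theorem normsq_sum (T : Finset ℝ) (c : ℝ → ℂ) (x : ℝ) :
    ‖∑ t ∈ T, c t * er t x‖ ^ 2 =
      (∑ t ∈ T, ∑ t' ∈ T, (c t * (starRingEnd ℂ) (c t')) * er (t - t') x).re := by
  have h1 : ((‖∑ t ∈ T, c t * er t x‖ ^ 2 : ℝ) : ℂ) =
      (∑ t ∈ T, c t * er t x) * (starRingEnd ℂ) (∑ t ∈ T, c t * er t x) := by
    rw [Complex.mul_conj, Complex.normSq_eq_norm_sq]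
  have h2 : (∑ t ∈ T, c t * er t x) * (starRingEnd ℂ) (∑ t ∈ T, c t * er t x) =
      ∑ t ∈ T, ∑ t' ∈ T, (c t * (starRingEnd ℂ) (c t')) * er (t - t') x := by
    rw [map_sum, Finset.sum_mul_sum]
    refine Finset.sum_congr rfl fun t _ => Finset.sum_congr rfl fun t' _ => ?_
    rw [map_mul, ← er_mul_conj]
    ring
  rw [← h2, ← h1, Complex.ofReal_re]

/-- one cell: duality with Selberg's weights -/
theorem cell_dual (H v D : ℕ) (l : ℕ → ℝ) (hl1 : l 1 = 1) (hl : ∀ d, |l d| ≤ 1) (hD1 : 1 ≤ D)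
    (hcell : ∀ p ∈ cell H v, D < p) (T : Finset ℝ) (c : ℝ → ℂ) (hc : ∀ t, ‖c t‖ ≤ 1)
    (I : ℝ → ℂ) (E B : ℝ) (hE : 0 ≤ E) (hB : 0 ≤ B) (hI0 : ‖I 0‖ ≤ 1)
    (hI : ∀ t ∈ T, ∀ t' ∈ T, t ≠ t' → ‖I (t - t')‖ ≤ B)
    (hSel0 : 0 ≤ ∑ d ∈ Icc 1 D, ∑ e ∈ Icc 1 D, l d * l e / (Nat.lcm d e : ℝ))
    (hA : ∀ t ∈ T, ∀ t' ∈ T, ∀ q : ℕ, 1 ≤ q → q ≤ D ^ 2 →
      ‖(∑ n ∈ (nint H v).filter (fun n => q ∣ n), er (t - t') (Real.log n) / (n : ℂ)) -
        (1 / (q : ℂ)) * I (t - t')‖ ≤ E / q) :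
    ∑ p ∈ cell H v, ‖∑ t ∈ T, c t * er t (Real.log p)‖ ^ 2 / (p : ℝ) ≤
      (T.card + T.card ^ 2 * B) *
        (∑ d ∈ Icc 1 D, ∑ e ∈ Icc 1 D, l d * l e / (Nat.lcm d e : ℝ)) +
        T.card ^ 2 * E * (1 + Real.log D) ^ 3 := by
  classical
  have hcc : ∀ t t', ‖c t * (starRingEnd ℂ) (c t')‖ ≤ 1 := by
    intro t t'
    rw [norm_mul, RCLike.norm_conj]
    exact mul_le_one₀ (hc t) (norm_nonneg _) (hc t')
  obtain ⟨ρ, hρ⟩ : ∃ ρ : ℝ, ρ = (∑ t ∈ T, ∑ t' ∈ T,
    (c t * (starRingEnd ℂ) (c t')) * I (t - t')).re := ⟨_, rfl⟩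
  have hρB : ρ ≤ T.card + T.card ^ 2 * B := by
    rw [hρ]
    refine (Complex.re_le_norm _).trans ?_
    have h1 : ∀ t ∈ T, ‖∑ t' ∈ T, (c t * (starRingEnd ℂ) (c t')) * I (t - t')‖ ≤ 1 + T.card * B := by
      intro t ht
      refine (norm_sum_le _ _).trans ?_
      have h2 : ∀ t' ∈ T, ‖(c t * (starRingEnd ℂ) (c t')) * I (t - t')‖ ≤
          (if t' = t then 1 else 0) + B := by
        intro t' ht'
        rw [norm_mul]
        by_cases h : t' = t
        · subst h
          rw [sub_self, if_pos rfl]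
          have := mul_le_one₀ (hcc t' t') (norm_nonneg _) hI0
          linarith
        · rw [if_neg h, zero_add]
          have h3 := hI t ht t' ht' (fun h' => h h'.symm)
          calc ‖c t * (starRingEnd ℂ) (c t')‖ * ‖I (t - t')‖ ≤ 1 * B :=
                mul_le_mul (hcc t t') h3 (norm_nonneg _) zero_le_one
            _ = B := one_mul _
      refine (Finset.sum_le_sum h2).trans ?_
      rw [Finset.sum_add_distrib, Finset.sum_const, nsmul_eq_mul, Finset.sum_ite_eq' T t,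
        if_pos ht]
    refine (norm_sum_le _ _).trans ((Finset.sum_le_sum h1).trans (le_of_eq ?_))
    rw [Finset.sum_const, nsmul_eq_mul]
    ring
  have hmain := sel_gen H v D l hl1 hl hD1 hcell
    (fun n => ‖∑ t ∈ T, c t * er t (Real.log n)‖ ^ 2) (fun n => by positivity) ρ
    (T.card ^ 2 * E) (by positivity) (by
      intro q hq1 hq2
      have h1 : (∑ n ∈ (nint H v).filter (fun n => q ∣ n),
          ‖∑ t ∈ T, c t * er t (Real.log n)‖ ^ 2 / (n : ℝ)) - ρ / q =
          (∑ t ∈ T, ∑ t' ∈ T, (c t * (starRingEnd ℂ) (c t')) *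
            ((∑ n ∈ (nint H v).filter (fun n => q ∣ n), er (t - t') (Real.log n) / (n : ℂ)) -
              (1 / (q : ℂ)) * I (t - t'))).re := by
        have h2 : ∀ n : ℕ, ‖∑ t ∈ T, c t * er t (Real.log n)‖ ^ 2 / (n : ℝ) =
            (∑ t ∈ T, ∑ t' ∈ T, (c t * (starRingEnd ℂ) (c t')) *
              (er (t - t') (Real.log n) / (n : ℂ))).re := by
          intro n
          rw [normsq_sum]
          have h3 : ∑ t ∈ T, ∑ t' ∈ T, (c t * (starRingEnd ℂ) (c t')) *
              (er (t - t') (Real.log n) / (n : ℂ)) =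
              (∑ t ∈ T, ∑ t' ∈ T, (c t * (starRingEnd ℂ) (c t')) * er (t - t') (Real.log n)) /
                (n : ℂ) := by
            rw [Finset.sum_div]
            refine Finset.sum_congr rfl fun t _ => ?_
            rw [Finset.sum_div]
            refine Finset.sum_congr rfl fun t' _ => ?_
            ring
          rw [h3, Complex.div_natCast_re]
        have h4 : ρ / q = (∑ t ∈ T, ∑ t' ∈ T, (c t * (starRingEnd ℂ) (c t')) *
            ((1 / (q : ℂ)) * I (t - t'))).re := by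
          rw [hρ, ← Complex.div_natCast_re]
          congr 1
          rw [Finset.sum_div]
          refine Finset.sum_congr rfl fun t _ => ?_
          rw [Finset.sum_div]
          refine Finset.sum_congr rfl fun t' _ => ?_
          ring
        rw [Finset.sum_congr rfl fun n _ => h2 n, ← Complex.re_sum, h4, ← Complex.sub_re]
        congr 1
        rw [Finset.sum_comm, ← Finset.sum_sub_distrib]
        refine Finset.sum_congr rfl fun t _ => ?_
        rw [Finset.sum_comm, ← Finset.sum_sub_distrib]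
        refine Finset.sum_congr rfl fun t' _ => ?_
        rw [mul_sub, Finset.mul_sum]
      rw [h1]
      refine (Complex.abs_re_le_norm _).trans ?_
      have h5 : ∀ t ∈ T, ‖∑ t' ∈ T, (c t * (starRingEnd ℂ) (c t')) *
            ((∑ n ∈ (nint H v).filter (fun n => q ∣ n), er (t - t') (Real.log n) / (n : ℂ)) -
              (1 / (q : ℂ)) * I (t - t'))‖ ≤ T.card * (E / q) := by
        intro t ht
        refine (norm_sum_le _ _).trans ?_
        rw [← nsmul_eq_mul, ← Finset.sum_const]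
        refine Finset.sum_le_sum fun t' ht' => ?_
        rw [norm_mul]
        calc _ ≤ 1 * (E / q) :=
              mul_le_mul (hcc t t') (hA t ht t' ht' q hq1 hq2) (norm_nonneg _) zero_le_one
          _ = E / q := one_mul _
      refine (norm_sum_le _ _).trans ((Finset.sum_le_sum h5).trans (le_of_eq ?_))
      rw [Finset.sum_const, nsmul_eq_mul]
      ring)
  have h1 := mul_le_mul_of_nonneg_right hρB hSel0
  linarith

end Pool.Agent.Y884.AD
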