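import Pool.Agent.Y884.AD.Cell

/-!
Few separated large values of prime sums (helper884, job AD-CNT of helper957).
-/

set_option autoImplicit false

namespace Pool.Agent.Y884.AD

open Finset MeasureTheory Filter
open Pool.Agent.H376R2.MR (er cell PP mm nint WW sel_aux_lcm sel_aux_int sel_weights)
open Pool.Agent.Y957.AD

theorem sum_inv_le {a b : ℕ} (ha : 1 ≤ a) (hab : a ≤ b) :
    ∑ v ∈ Ico a b, 1 / (v : ℝ) ≤ Real.log ((b : ℝ) / a) + 1 / a - 1 / b := by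
  induction b, hab using Nat.le_induction with
  | base =>
    have ha0 : (0 : ℝ) < a := by exact_mod_cast ha
    rw [Ico_self, sum_empty, div_self ha0.ne', Real.log_one]
    linarith
  | succ b hab ih =>
    have ha0 : (0 : ℝ) < a := by exact_mod_cast ha
    have hb0 : (0 : ℝ) < b := by exact_mod_cast (lt_of_lt_of_le ha hab)
    rw [Finset.sum_Ico_succ_top hab]
    have h1 := Real.one_sub_inv_le_log_of_pos (show 0 < ((b : ℝ) + 1) / b by positivity)
    have h2 : 1 - (((b : ℝ) + 1) / b)⁻¹ = 1 / ((b : ℝ) + 1) := by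
      field_simp
      ring
    rw [h2] at h1
    have h3 : Real.log (((b + 1 : ℕ) : ℝ) / a) =
        Real.log ((b : ℝ) / a) + Real.log (((b : ℝ) + 1) / b) := by
      rw [← Real.log_mul (by positivity) (by positivity)]
      congr 1
      push_cast
      field_simp
    rw [h3]
    push_cast
    linarith

/-- one cell, with the parameters -/
theorem cell_bound {C : ℝ} (hC : 0 < C) (hprog : ∀ (Q v q : ℕ) (τ : ℝ), 1 ≤ Q → 1 ≤ v →
    (4 * (Q.factorial : ℝ)) ^ 2 ≤ Real.exp (3 / 4 * v) → 1 ≤ q → (q : ℝ) ≤ Real.exp ((v : ℝ) / 4) →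
    |τ| ≤ Real.exp (3 / 4 * Q * v) →
    ‖(∑ n ∈ (nint 1 v).filter (fun n => q ∣ n), er τ (Real.log n) / (n : ℂ)) -
      (1 / (q : ℂ)) * ∫ s in (v : ℝ)..((v : ℝ) + 1), er τ s‖ ≤
      C * Real.exp (-(3 / 4 * v / (4 * Q * 2 ^ Q))) / q)
    {Q v : ℕ} (hQ : 1 ≤ Q) (hv : 50 ≤ v) (hfac : (4 * (Q.factorial : ℝ)) ^ 2 ≤ Real.exp (3 / 4 * v))
    {K : ℝ} (hK : 0 < K) (T : Finset ℝ) (hsep : ∀ t ∈ T, ∀ t' ∈ T, t ≠ t' → K ≤ |t - t'|)
    (hbd : ∀ t ∈ T, |t| ≤ Real.exp (3 / 4 * Q * v) / 2) (c : ℝ → ℂ) (hc : ∀ t, ‖c t‖ ≤ 1) :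
    ∑ p ∈ cell 1 v, ‖∑ t ∈ T, c t * er t (Real.log p)‖ ^ 2 / (p : ℝ) ≤
      (T.card + T.card ^ 2 * (2 / K)) * (9 * (1 / v)) +
        T.card ^ 2 * (C * Real.exp (-(3 / 4 * v / (4 * Q * 2 ^ Q)))) * (1 + v) ^ 3 := by
  have hv' : (50 : ℝ) ≤ v := by exact_mod_cast hv
  have hv0 : (0 : ℝ) < v := by linarith
  obtain ⟨D, hD⟩ : ∃ D : ℕ, D = ⌊Real.exp ((v : ℝ) / 8)⌋₊ := ⟨_, rfl⟩
  have hDle : (D : ℝ) ≤ Real.exp ((v : ℝ) / 8) := by
    rw [hD]; exact Nat.floor_le (Real.exp_pos _).le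
  have hDlt : Real.exp ((v : ℝ) / 8) < D + 1 := by rw [hD]; exact Nat.lt_floor_add_one _
  have he6 : (7 : ℝ) ≤ Real.exp ((v : ℝ) / 8) := by
    have := Real.add_one_le_exp ((v : ℝ) / 8)
    linarith
  have hDr : Real.exp ((v : ℝ) / 8) / 2 ≤ D := by linarith
  have hD2 : 2 ≤ D := by
    have : (2 : ℝ) ≤ D := by linarith
    exact_mod_cast this
  have hD0 : (0 : ℝ) < D := by linarith
  have hlogD : (v : ℝ) / 9 ≤ Real.log D := by
    have h1 := Real.log_le_log (by positivity) hDr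
    rw [Real.log_div (Real.exp_pos _).ne' (by norm_num), Real.log_exp] at h1
    have h2 := Real.log_two_lt_d9
    linarith
  have hlogD2 : Real.log D ≤ v := by
    have h1 := Real.log_le_log hD0 hDle
    rw [Real.log_exp] at h1
    linarith
  have hlogD0 : 0 < Real.log D := by linarith
  obtain ⟨l, hl1, hl, _, _, hS0, hS1⟩ := sel_weights D hD2
  have hcard0 : (0 : ℝ) ≤ T.card := Nat.cast_nonneg _
  have h1 := cell_dual 1 v D l hl1 hl (by omega) (fun p hp => by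
      rw [mem_cell] at hp
      obtain ⟨hp1, hp2, _⟩ := hp
      have hp0 : (0 : ℝ) < p := by exact_mod_cast hp1.pos
      have h2 : Real.exp v ≤ p := by
        rw [← Real.le_log_iff_exp_le hp0]
        simpa using hp2
      have h3 : Real.exp ((v : ℝ) / 8) < Real.exp v := Real.exp_lt_exp.mpr (by linarith)
      have h4 : (D : ℝ) < p := by linarith
      exact_mod_cast h4) T c hc (fun τ => ∫ s in (v : ℝ)..((v : ℝ) + 1), er τ s)
    (C * Real.exp (-(3 / 4 * v / (4 * Q * 2 ^ Q)))) (2 / K) (by positivity) (by positivity)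
    (by
      simp only [er_zero]
      rw [intervalIntegral.integral_const]
      simp)
    (fun t ht t' ht' hne => by
      refine (sel_aux_int (t - t') _ _ (sub_ne_zero.mpr hne)).trans ?_
      exact div_le_div_of_nonneg_left (by norm_num) hK (hsep t ht t' ht' hne))
    hS0 (fun t ht t' ht' q hq1 hq2 => by
      refine hprog Q v q (t - t') hQ (by omega) hfac hq1 ?_ ?_
      · have h2 : (q : ℝ) ≤ (D : ℝ) ^ 2 := by exact_mod_cast hq2
        have h3 : (D : ℝ) ^ 2 ≤ Real.exp ((v : ℝ) / 8) ^ 2 := pow_le_pow_left₀ hD0.le hDle 2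
        have h4 : Real.exp ((v : ℝ) / 8) ^ 2 = Real.exp ((v : ℝ) / 4) := by
          rw [← Real.exp_nat_mul]
          congr 1
          push_cast
          ring
        linarith
      · have h2 := hbd t ht
        have h3 := hbd t' ht'
        exact (abs_sub _ _).trans (by linarith))
  refine h1.trans (add_le_add ?_ ?_)
  · apply mul_le_mul_of_nonneg_left _ (by positivity)
    refine hS1.trans ?_
    rw [div_le_iff₀ hlogD0]
    have h2 : 9 * (1 / (v : ℝ)) * (v / 9) ≤ 9 * (1 / (v : ℝ)) * Real.log D :=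
      mul_le_mul_of_nonneg_left hlogD (by positivity)
    have h3 : 9 * (1 / (v : ℝ)) * (v / 9) = 1 := by field_simp
    linarith
  · apply mul_le_mul_of_nonneg_left _ (by positivity)
    exact pow_le_pow_left₀ (by linarith) (by linarith) 3

/-- few separated large values -/
theorem cnt : S_PROG → S_CNT := by
  rintro ⟨C, hC, hprog⟩
  intro θ hθ hθ1
  obtain ⟨C', hC', hW⟩ := WP_bound
  have hθ2 : 0 < θ ^ 2 := by positivity
  obtain ⟨K, hK⟩ : ∃ K : ℕ, K = ⌈144 / θ ^ 2⌉₊ := ⟨_, rfl⟩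
  obtain ⟨R, hR⟩ : ∃ R : ℕ, R = ⌈36 / θ ^ 2⌉₊ := ⟨_, rfl⟩
  have hK1 : 144 / θ ^ 2 ≤ K := by rw [hK]; exact Nat.le_ceil _
  have hR1 : 36 / θ ^ 2 ≤ R := by rw [hR]; exact Nat.le_ceil _
  have hK0 : (0 : ℝ) < K := lt_of_lt_of_le (by positivity) hK1
  have hKn : 1 ≤ K := by
    have : 0 < K := by exact_mod_cast hK0
    omega
  refine ⟨K, R, max 50 ⌈C⌉₊, max (C' + 1) (4 / θ ^ 2), hKn, ?_⟩
  intro Q a b hQ ha hab hfac hsmall hW0 T hsep hbd hlarge
  have ha50 : 50 ≤ a := (le_max_left _ _).trans ha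
  have haC : C ≤ a := by
    have h1 : ⌈C⌉₊ ≤ a := (le_max_right _ _).trans ha
    exact (Nat.le_ceil C).trans (by exact_mod_cast h1)
  have hW1 : C' + 1 ≤ WP (PS a b) := (le_max_left _ _).trans hW0
  have hW2 : 4 / θ ^ 2 ≤ WP (PS a b) := (le_max_right _ _).trans hW0
  by_contra hcon
  obtain ⟨T', hT', hcard⟩ := Finset.exists_subset_card_eq (show R + 1 ≤ T.card by omega)
  obtain ⟨W, hWd⟩ : ∃ W, W = WP (PS a b) := ⟨_, rfl⟩
  rw [← hWd] at hW1 hW2 hlarge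
  have hWpos : 0 < W := by linarith
  obtain ⟨r, hr⟩ : ∃ r : ℝ, r = T'.card := ⟨_, rfl⟩
  have hr1 : r = R + 1 := by rw [hr, hcard]; push_cast; ring
  have hr0 : 0 < r := by rw [hr1]; positivity
  have ha0 : (0 : ℝ) < a := by
    have : (50 : ℝ) ≤ a := by exact_mod_cast ha50
    linarith
  have hb0 : (0 : ℝ) ≤ b := Nat.cast_nonneg b
  -- unimodular coefficients
  obtain ⟨c, hcd⟩ : ∃ c : ℝ → ℂ, c = fun t => (‖ZP (PS a b) t‖ : ℂ) / ZP (PS a b) t := ⟨_, rfl⟩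
  have hc : ∀ t, ‖c t‖ ≤ 1 := by
    intro t
    rw [hcd]
    simp only
    rw [norm_div, Complex.norm_real, norm_norm]
    exact div_self_le_one _
  have hcZ : ∀ t, c t * ZP (PS a b) t = (‖ZP (PS a b) t‖ : ℂ) := by
    intro t
    rw [hcd]
    simp only
    by_cases h : ZP (PS a b) t = 0
    · rw [h]; simp
    · rw [div_mul_cancel₀ _ h]
  obtain ⟨G, hG⟩ : ∃ G : ℕ → ℂ, G = fun p : ℕ => ∑ t ∈ T', c t * er t (Real.log (p : ℝ)) :=
    ⟨_, rfl⟩
  -- duality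
  have hsumZ : ∑ t ∈ T', ‖ZP (PS a b) t‖ ≤ ∑ p ∈ PS a b, 1 / (p : ℝ) * ‖G p‖ := by
    have h1 : ((∑ t ∈ T', ‖ZP (PS a b) t‖ : ℝ) : ℂ) = ∑ p ∈ PS a b, (1 / (p : ℂ)) * G p := by
      push_cast
      rw [Finset.sum_congr rfl fun t _ => (hcZ t).symm]
      unfold ZP
      rw [Finset.sum_congr rfl fun t _ => Finset.mul_sum _ _ _, Finset.sum_comm]
      refine Finset.sum_congr rfl fun p _ => ?_
      rw [hG]
      simp only
      rw [Finset.mul_sum]
      refine Finset.sum_congr rfl fun t _ => ?_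
      ring
    have h2 : ∑ t ∈ T', ‖ZP (PS a b) t‖ = ‖((∑ t ∈ T', ‖ZP (PS a b) t‖ : ℝ) : ℂ)‖ := by
      rw [Complex.norm_real, Real.norm_eq_abs,
        abs_of_nonneg (Finset.sum_nonneg fun _ _ => norm_nonneg _)]
    rw [h2, h1]
    refine (norm_sum_le _ _).trans (Finset.sum_le_sum fun p _ => ?_)
    rw [norm_mul, norm_div, norm_one, Complex.norm_natCast]
  have hCS : (∑ p ∈ PS a b, 1 / (p : ℝ) * ‖G p‖) ^ 2 ≤ W * ∑ p ∈ PS a b, ‖G p‖ ^ 2 / (p : ℝ) := by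
    have h1 := Finset.sum_mul_sq_le_sq_mul_sq (PS a b) (fun p : ℕ => Real.sqrt (1 / (p : ℝ)))
      (fun p : ℕ => Real.sqrt (1 / (p : ℝ)) * ‖G p‖)
    have h2 : ∀ p : ℕ, Real.sqrt (1 / (p : ℝ)) * (Real.sqrt (1 / (p : ℝ)) * ‖G p‖) =
        1 / (p : ℝ) * ‖G p‖ := by
      intro p
      rw [← mul_assoc, Real.mul_self_sqrt (by positivity)]
    have h3 : ∀ p : ℕ, Real.sqrt (1 / (p : ℝ)) ^ 2 = 1 / (p : ℝ) := fun p =>
      Real.sq_sqrt (by positivity)
    have h4 : ∀ p : ℕ, (Real.sqrt (1 / (p : ℝ)) * ‖G p‖) ^ 2 = ‖G p‖ ^ 2 / (p : ℝ) := by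
      intro p
      rw [mul_pow, h3]
      ring
    rw [Finset.sum_congr rfl fun p _ => h2 p, Finset.sum_congr rfl fun p _ => h3 p,
      Finset.sum_congr rfl fun p _ => h4 p] at h1
    have h5 : W = ∑ p ∈ PS a b, 1 / (p : ℝ) := by rw [hWd]; rfl
    rw [h5]
    exact h1
  have hlow : (θ * W * r) ^ 2 ≤ (∑ p ∈ PS a b, 1 / (p : ℝ) * ‖G p‖) ^ 2 := by
    apply pow_le_pow_left₀ (by positivity)
    refine le_trans ?_ hsumZ
    calc θ * W * r = ∑ _t ∈ T', θ * W := by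
          rw [Finset.sum_const, nsmul_eq_mul, ← hr]; ring
      _ ≤ _ := Finset.sum_le_sum fun t ht => hlarge t (hT' ht)
  -- the cells
  obtain ⟨e, he⟩ : ∃ e : ℝ, e = Real.exp (-(3 / 4 * a / (4 * Q * 2 ^ Q))) := ⟨_, rfl⟩
  rw [← he] at hsmall
  have he0 : 0 < e := by rw [he]; exact Real.exp_pos _
  have hQ0 : (0 : ℝ) < Q := by exact_mod_cast hQ
  have hcells : ∑ p ∈ PS a b, ‖G p‖ ^ 2 / (p : ℝ) ≤
      ∑ v ∈ Ico a b, ((r + r ^ 2 * (2 / K)) * (9 * (1 / (v : ℝ))) +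
        r ^ 2 * (C * e) * (1 + b) ^ 3) := by
    have h1 := sum_PS_cells (fun p => ‖G p‖ ^ 2 / (p : ℝ)) 1 a b le_rfl
    rw [mul_one, mul_one] at h1
    rw [h1]
    refine Finset.sum_le_sum fun v hv => ?_
    rw [Finset.mem_Ico] at hv
    have hav : (a : ℝ) ≤ v := by exact_mod_cast hv.1
    have hvb : (v : ℝ) ≤ b := by exact_mod_cast hv.2.le
    have hv0 : (0 : ℝ) ≤ v := by linarith
    have h2 := cell_bound hC hprog hQ (show 50 ≤ v by omega)
      (hfac.trans (Real.exp_le_exp.mpr (by linarith))) hK0 T'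
      (fun t ht t' ht' hne => hsep t (hT' ht) t' (hT' ht') hne)
      (fun t ht => by
        refine (hbd t (hT' ht)).trans ?_
        have : Real.exp (3 / 4 * Q * a) ≤ Real.exp (3 / 4 * Q * v) := by
          apply Real.exp_le_exp.mpr
          exact mul_le_mul_of_nonneg_left hav (by positivity)
        linarith) c hc
    rw [← hr] at h2
    have h3 : ∑ p ∈ cell 1 v, ‖G p‖ ^ 2 / (p : ℝ) =
        ∑ p ∈ cell 1 v, ‖∑ t ∈ T', c t * er t (Real.log p)‖ ^ 2 / (p : ℝ) := by rw [hG]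
    rw [h3]
    refine h2.trans (add_le_add le_rfl ?_)
    have h4 : Real.exp (-(3 / 4 * v / (4 * Q * 2 ^ Q))) ≤ e := by
      rw [he]
      apply Real.exp_le_exp.mpr
      rw [neg_le_neg_iff]
      apply div_le_div_of_nonneg_right _ (by positivity)
      linarith
    have h5 : (1 + (v : ℝ)) ^ 3 ≤ (1 + b) ^ 3 := pow_le_pow_left₀ (by linarith) (by linarith) 3
    have h6 : r ^ 2 * (C * Real.exp (-(3 / 4 * v / (4 * Q * 2 ^ Q)))) ≤ r ^ 2 * (C * e) :=
      mul_le_mul_of_nonneg_left (mul_le_mul_of_nonneg_left h4 hC.le) (by positivity)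
    exact mul_le_mul h6 h5 (by positivity) (by positivity)
  rw [Finset.sum_add_distrib, Finset.sum_const, nsmul_eq_mul, ← Finset.mul_sum, ← Finset.mul_sum,
    Nat.card_Ico] at hcells
  have hinv := sum_inv_le (show 1 ≤ a by omega) hab
  have hlogb : Real.log ((b : ℝ) / a) ≤ W + C' := by
    have h1 := (abs_le.1 (hW a b (by omega) hab)).1
    rw [← hWd] at h1
    linarith
  have hsum9 : ∑ v ∈ Ico a b, 1 / (v : ℝ) ≤ 2 * W := by
    have h1 : 1 / (a : ℝ) ≤ 1 := by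
      rw [div_le_one ha0]
      have : (50 : ℝ) ≤ a := by exact_mod_cast ha50
      linarith
    have h2 : 0 ≤ 1 / (b : ℝ) := by positivity
    linarith
  have herr : ((b - a : ℕ) : ℝ) * (r ^ 2 * (C * e) * (1 + b) ^ 3) ≤ r ^ 2 := by
    have h1 : ((b - a : ℕ) : ℝ) ≤ 1 + b := by
      have : ((b - a : ℕ) : ℝ) ≤ b := by exact_mod_cast Nat.sub_le b a
      linarith
    have h2 : C ≤ 1 + b := by
      have : (a : ℝ) ≤ b := by exact_mod_cast hab
      linarith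
    calc ((b - a : ℕ) : ℝ) * (r ^ 2 * (C * e) * (1 + b) ^ 3)
        ≤ (1 + b) * (r ^ 2 * ((1 + b) * e) * (1 + b) ^ 3) := by
          apply mul_le_mul h1 _ (by positivity) (by positivity)
          apply mul_le_mul_of_nonneg_right _ (by positivity)
          apply mul_le_mul_of_nonneg_left _ (by positivity)
          exact mul_le_mul_of_nonneg_right h2 he0.le
      _ = r ^ 2 * ((1 + b) ^ 5 * e) := by ring
      _ ≤ r ^ 2 * 1 := mul_le_mul_of_nonneg_left hsmall (by positivity)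
      _ = r ^ 2 := mul_one _
  have hS : ∑ p ∈ PS a b, ‖G p‖ ^ 2 / (p : ℝ) ≤ (r + r ^ 2 * (2 / K)) * (9 * (2 * W)) + r ^ 2 := by
    refine hcells.trans (add_le_add ?_ herr)
    apply mul_le_mul_of_nonneg_left _ (by positivity)
    linarith
  -- the contradiction
  have hfin : (θ * W * r) ^ 2 ≤ W * ((r + r ^ 2 * (2 / K)) * (9 * (2 * W)) + r ^ 2) :=
    hlow.trans (hCS.trans (mul_le_mul_of_nonneg_left hS hWpos.le))
  have hKθ : 2 / (K : ℝ) * 72 ≤ θ ^ 2 := by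
    rw [div_le_iff₀ hθ2] at hK1
    rw [div_mul_eq_mul_div, div_le_iff₀ hK0]
    linarith
  have hWθ : 4 ≤ W * θ ^ 2 := by
    rw [div_le_iff₀ hθ2] at hW2
    exact hW2
  have hRθ : 36 < r * θ ^ 2 := by
    rw [div_le_iff₀ hθ2] at hR1
    rw [hr1, add_mul]
    linarith
  have f2 : (W * (θ ^ 2 * W * r ^ 2)) ≤ W * (18 * (W * r) + (2 / K * 72) * (W * r ^ 2) / 4 + r ^ 2) := by
    have : (θ * W * r) ^ 2 = W * (θ ^ 2 * W * r ^ 2) := by ring
    rw [this] at hfin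
    refine hfin.trans (le_of_eq ?_)
    ring
  have f3 := le_of_mul_le_mul_left f2 hWpos
  have f4 : (2 / K * 72) * (W * r ^ 2) ≤ θ ^ 2 * (W * r ^ 2) :=
    mul_le_mul_of_nonneg_right hKθ (by positivity)
  have f5 : 4 * r ^ 2 ≤ (W * θ ^ 2) * r ^ 2 := mul_le_mul_of_nonneg_right hWθ (by positivity)
  have f6 : 36 * (W * r) < (r * θ ^ 2) * (W * r) := mul_lt_mul_of_pos_right hRθ (by positivity)
  linarith

end Pool.Agent.Y884.AD
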