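import Pool.Agent.Y884.AD.VdcU
import Pool.Agent.Y957.AD.Spec

/-!
Job AD-PROG of helper957 (helper884): `S_PROG`, the sums of `n^{-1+iτ}` over multiples of `q` in a cell, uniformly in
the order of the derivative test. Adapted from `Pool.Agent.H376R2.MR.Phas` and `Prog`.
-/

set_option autoImplicit false

namespace Pool.Agent.Y884.AD

open Finset MeasureTheory intervalIntegral
open Pool.Agent.H376R2.MR

/-- one block of the exponential sum -/
theorem phas_blockU (M : ℕ) (hM : 1 ≤ M) (a u L : ℕ) (τ : ℝ) (h16 : (16 : ℝ) ≤ a)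
    (hfac : ((2 * M.factorial : ℕ) : ℝ) ^ 2 ≤ a) (hau : a ≤ u) (hLa : L ≤ a) (huL : u + L ≤ 3 * a)
    (h1 : 2 * Real.pi * (a : ℝ) ^ (1 / 2 : ℝ) ≤ |τ|) (h2 : |τ| ≤ (a : ℝ) ^ M) :
    ‖∑ n ∈ range L, er τ (Real.log ((u + n : ℕ) : ℝ)) / (((u + n : ℕ) : ℝ) : ℂ)‖ ≤
      (6 + C1) * (a : ℝ) ^ (-(1 / (4 * M * 2 ^ M) : ℝ)) := by
  obtain ⟨η, hη⟩ : ∃ η : ℝ, η = 1 / (4 * M * 2 ^ M) := ⟨_, rfl⟩
  obtain ⟨C, hCd⟩ : ∃ C : ℝ, C = 6 + C1 := ⟨_, rfl⟩
  have hC : 0 < C := by rw [hCd]; have := C1_pos; linarith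
  have ha : 1 ≤ a := by
    have : (1 : ℝ) ≤ a := by linarith
    exact_mod_cast this
  rw [← hη, ← hCd]
  have ha' : (1 : ℝ) ≤ a := by exact_mod_cast ha
  have ha0 : (0 : ℝ) < a := by linarith
  have hu' : (a : ℝ) ≤ u := by exact_mod_cast hau
  have hpi := Real.pi_pos
  have h2pi : 0 < 2 * Real.pi := by positivity
  have hξ1 : (a : ℝ) ^ (1 / 2 : ℝ) ≤ |τ / (2 * Real.pi)| := by
    rw [abs_div, abs_of_pos h2pi, le_div_iff₀ h2pi]
    linarith
  have hξ2 : |τ / (2 * Real.pi)| ≤ (a : ℝ) ^ M := by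
    rw [abs_div, abs_of_pos h2pi]
    refine (div_le_self (abs_nonneg _) ?_).trans h2
    nlinarith [Real.pi_gt_three]
  have hpart : ∀ K, K ≤ L → ‖∑ n ∈ range K, er τ (Real.log ((u + n : ℕ) : ℝ))‖ ≤
      C * (a : ℝ) ^ (1 - η) := by
    intro K hK
    have h3 := vdc_logU M hM a K u (τ / (2 * Real.pi)) h16 hfac hu' (hK.trans hLa)
      (by exact_mod_cast (by omega : u + K ≤ 3 * a)) hξ1 hξ2
    rw [← hη, ← hCd] at h3
    refine le_trans (le_of_eq ?_) h3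
    congr 1
    refine sum_congr rfl fun n _ => ?_
    unfold er Pool.Agent.H469R2.NK.e
    congr 1
    push_cast
    field_simp
  have h4 := phas_abel (fun n => 1 / ((u + n : ℕ) : ℝ)) (fun n => er τ (Real.log ((u + n : ℕ) : ℝ)))
    (C * (a : ℝ) ^ (1 - η)) L (fun n => by positivity) (fun n => by
      have : (0 : ℝ) < ((u + n : ℕ) : ℝ) := by
        have : 0 < u + n := by omega
        exact_mod_cast this
      apply one_div_le_one_div_of_le this
      push_cast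
      linarith) hpart
  have h5 : ∑ n ∈ range L, er τ (Real.log ((u + n : ℕ) : ℝ)) / (((u + n : ℕ) : ℝ) : ℂ) =
      ∑ n ∈ range L, ((1 / ((u + n : ℕ) : ℝ) : ℝ) : ℂ) * er τ (Real.log ((u + n : ℕ) : ℝ)) := by
    refine sum_congr rfl fun n _ => ?_
    push_cast
    rw [one_div, div_eq_inv_mul]
  rw [h5]
  refine h4.trans ?_
  have h6 : 1 / ((u + 0 : ℕ) : ℝ) ≤ 1 / a := by
    apply one_div_le_one_div_of_le ha0
    simpa using hu'
  have h7 : 0 ≤ C * (a : ℝ) ^ (1 - η) := by positivity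
  refine (mul_le_mul_of_nonneg_right h6 h7).trans (le_of_eq ?_)
  rw [Real.rpow_sub ha0, Real.rpow_one, Real.rpow_neg ha0.le]
  field_simp

/-- the constant -/
noncomputable def C2 : ℝ := 2 * (6 + C1) + 2 * (1 + 2 * Real.pi) + 1

theorem C2_pos : 0 < C2 := by
  have := C1_pos
  have := Real.pi_pos
  unfold C2
  positivity

theorem phase_sumU (M : ℕ) (hM : 1 ≤ M) (a b : ℕ) (τ : ℝ) (h16 : (16 : ℝ) ≤ a)
    (hfac : ((2 * M.factorial : ℕ) : ℝ) ^ 2 ≤ a) (hab : a ≤ b)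
    (hb : b ≤ 3 * a) (hτ : |τ| ≤ (a : ℝ) ^ M) :
    ‖(∑ m ∈ Ico a b, er τ (Real.log m) / (m : ℂ)) - ∫ s in (Real.log a)..(Real.log b), er τ s‖ ≤
      C2 * (a : ℝ) ^ (-(1 / (4 * M * 2 ^ M) : ℝ)) := by
  obtain ⟨η₁, hη₁d⟩ : ∃ η : ℝ, η = 1 / (4 * M * 2 ^ M) := ⟨_, rfl⟩
  obtain ⟨C₁, hC₁d⟩ : ∃ C : ℝ, C = 6 + C1 := ⟨_, rfl⟩
  have hC₁ : 0 < C₁ := by rw [hC₁d]; have := C1_pos; linarith
  have hM' : (1 : ℝ) ≤ M := by exact_mod_cast hM
  have h2M : (1 : ℝ) ≤ 2 ^ M := one_le_pow₀ (by norm_num)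
  have hη₁ : 0 < η₁ := by rw [hη₁d]; positivity
  have hη₁2 : η₁ ≤ 1 / 2 := by
    rw [hη₁d, div_le_div_iff₀ (by positivity) (by norm_num)]
    nlinarith
  have ha : 1 ≤ a := by
    have : (1 : ℝ) ≤ a := by linarith
    exact_mod_cast this
  have hblock := fun u L h1 h2 h3 h4 h5 => phas_blockU M hM a u L τ h16 hfac h1 h2 h3 h4 h5
  rw [← hη₁d, ← hC₁d] at hblock
  rw [← hη₁d, C2, ← hC₁d]
  have hpi := Real.pi_pos
  have ha' : (1 : ℝ) ≤ a := by exact_mod_cast ha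
  have ha0 : (0 : ℝ) < a := by linarith
  set η := η₁ with hη
  have hpow1 : (a : ℝ) ^ (-η₁) ≤ (a : ℝ) ^ (-η) := le_refl _
  have hpow2 : (a : ℝ) ^ (-(1 / 2) : ℝ) ≤ (a : ℝ) ^ (-η) :=
    Real.rpow_le_rpow_of_exponent_le ha' (by linarith)
  have hpos : 0 < (a : ℝ) ^ (-η) := by positivity
  have hpos2 : 0 < (a : ℝ) ^ (-(1 / 2) : ℝ) := by positivity
  by_cases hc : |τ| ≤ 2 * Real.pi * (a : ℝ) ^ (1 / 2 : ℝ)
  · refine (phas_small a b τ ha hab hb).trans ?_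
    have h1 : (1 : ℝ) ≤ (a : ℝ) ^ (1 / 2 : ℝ) := Real.one_le_rpow ha' (by norm_num)
    have h2 : 1 + |τ| ≤ (1 + 2 * Real.pi) * (a : ℝ) ^ (1 / 2 : ℝ) := by nlinarith
    have h3 : (a : ℝ) ^ (1 / 2 : ℝ) / a = (a : ℝ) ^ (-(1 / 2) : ℝ) := by
      rw [show (-(1 / 2) : ℝ) = 1 / 2 - 1 by norm_num, Real.rpow_sub ha0, Real.rpow_one]
    calc 2 * (1 + |τ|) / a ≤ 2 * ((1 + 2 * Real.pi) * (a : ℝ) ^ (1 / 2 : ℝ)) / a := by gcongr
      _ = 2 * (1 + 2 * Real.pi) * ((a : ℝ) ^ (1 / 2 : ℝ) / a) := by ring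
      _ = 2 * (1 + 2 * Real.pi) * (a : ℝ) ^ (-(1 / 2) : ℝ) := by rw [h3]
      _ ≤ 2 * (1 + 2 * Real.pi) * (a : ℝ) ^ (-η) := by gcongr
      _ ≤ _ := by
        apply mul_le_mul_of_nonneg_right _ hpos.le
        linarith
  · push Not at hc
    have hτ0 : τ ≠ 0 := by
      rintro rfl
      rw [abs_zero] at hc
      have : 0 < 2 * Real.pi * (a : ℝ) ^ (1 / 2 : ℝ) := by positivity
      linarith
    -- integral
    have hI : ‖∫ s in (Real.log a)..(Real.log b), er τ s‖ ≤ (a : ℝ) ^ (-(1 / 2) : ℝ) := by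
      refine (phas_integral_er τ _ _ hτ0).trans ?_
      have h1 : 2 / |τ| ≤ 2 / (2 * Real.pi * (a : ℝ) ^ (1 / 2 : ℝ)) := by
        gcongr
      refine h1.trans ?_
      rw [Real.rpow_neg ha0.le, div_le_iff₀ (by positivity)]
      have h2 : ((a : ℝ) ^ (1 / 2 : ℝ))⁻¹ * (2 * Real.pi * (a : ℝ) ^ (1 / 2 : ℝ)) = 2 * Real.pi := by
        field_simp
      rw [h2]
      linarith [Real.pi_gt_three]
    -- sum
    have hS : ‖∑ m ∈ Ico a b, er τ (Real.log m) / (m : ℂ)‖ ≤ 2 * C₁ * (a : ℝ) ^ (-η₁) := by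
      have hshift : ∀ x y : ℕ, x ≤ y → ∑ m ∈ Ico x y, er τ (Real.log m) / (m : ℂ) =
          ∑ n ∈ range (y - x), er τ (Real.log ((x + n : ℕ) : ℝ)) / (((x + n : ℕ) : ℝ) : ℂ) := by
        intro x y hxy
        rw [sum_Ico_eq_sum_range]
        refine sum_congr rfl fun n _ => ?_
        push_cast
        rfl
      rcases le_or_gt b (2 * a) with h2a | h2a
      · rw [hshift a b hab]
        have h1 := hblock a (b - a) le_rfl (by omega) (by omega) hc.le hτ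
        refine h1.trans ?_
        have : 0 ≤ C₁ * (a : ℝ) ^ (-η₁) := by positivity
        linarith
      · rw [← sum_Ico_consecutive _ (show a ≤ 2 * a by omega) h2a.le, hshift a (2 * a) (by omega),
          hshift (2 * a) b h2a.le]
        have h1 := hblock a (2 * a - a) le_rfl (by omega) (by omega) hc.le hτ
        have h2 := hblock (2 * a) (b - 2 * a) (by omega) (by omega) (by omega) hc.le hτ
        refine (norm_add_le _ _).trans ?_
        linarith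
    refine (norm_sub_le _ _).trans ?_
    have h3 : 2 * C₁ * (a : ℝ) ^ (-η₁) ≤ 2 * C₁ * (a : ℝ) ^ (-η) := by gcongr
    have h4 : 0 ≤ 2 * (1 + 2 * Real.pi) * (a : ℝ) ^ (-η) := by positivity
    have h5 : (2 * C₁ + 2 * (1 + 2 * Real.pi) + 1) * (a : ℝ) ^ (-η) =
        2 * C₁ * (a : ℝ) ^ (-η) + 2 * (1 + 2 * Real.pi) * (a : ℝ) ^ (-η) + (a : ℝ) ^ (-η) := by ring
    rw [h5]
    linarith

/-- **AD-PROG** -/
theorem prog : Pool.Agent.Y957.AD.S_PROG := by
  refine ⟨C2 + 2, by have := C2_pos; linarith, ?_⟩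
  intro Q v q τ hQ hv hfacv hq hqN hτ
  have hC := C2_pos
  obtain ⟨η', hη'⟩ : ∃ η : ℝ, η = 1 / (4 * Q * 2 ^ Q) := ⟨_, rfl⟩
  have hQ' : (1 : ℝ) ≤ Q := by exact_mod_cast hQ
  have h2Q : (1 : ℝ) ≤ 2 ^ Q := one_le_pow₀ (by norm_num)
  have hη : 0 < η' := by rw [hη']; positivity
  have hη2 : η' ≤ 1 / 2 := by
    rw [hη', div_le_div_iff₀ (by positivity) (by norm_num)]
    nlinarith
  have hq0 : (0 : ℝ) < q := by exact_mod_cast hq
  have hq1 : (1 : ℝ) ≤ q := by exact_mod_cast hq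
  have hv1 : (1 : ℝ) ≤ v := by exact_mod_cast hv
  have hvp : (0 : ℝ) < v := by linarith
  obtain ⟨V, hV⟩ : ∃ V : ℝ, V = (v : ℝ) := ⟨_, rfl⟩
  have hre := prog_reindex 1 v q le_rfl hv hq τ
  rw [Nat.cast_one, div_one, div_one] at hre
  rw [hre]
  rw [← hV] at hfacv hqN hτ hv1 hvp ⊢
  have hV0 : 0 < V := hvp
  have hexpη : Real.exp (-(3 / 4 * V / (4 * Q * 2 ^ Q))) = Real.exp (-(3 * η' / 4 * V)) := by
    congr 1
    rw [hη']
    field_simp
  rw [hexpη]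
  obtain ⟨N, hN⟩ : ∃ N : ℝ, N = Real.exp V := ⟨_, rfl⟩
  have hN1 : 1 ≤ N := by rw [hN]; exact Real.one_le_exp hV0.le
  have hNp : 0 < N := by linarith
  obtain ⟨N2, hN2⟩ : ∃ N2 : ℝ, N2 = Real.exp (V + 1) := ⟨_, rfl⟩
  have hN2e : N2 ≤ 2.7182818286 * N := by
    rw [hN2, hN, Real.exp_add, mul_comm]
    have h2 := Real.exp_one_lt_d9
    have h3 := Real.exp_pos V
    nlinarith
  have hNN2 : N ≤ N2 := by
    rw [hN, hN2]; exact Real.exp_le_exp.2 (by linarith)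
  have hN2p : 0 < N2 := by linarith
  -- N / q ≥ N^{3/4}
  have hNq : Real.exp (3 / 4 * V) ≤ N / q := by
    rw [le_div_iff₀ hq0]
    calc Real.exp (3 / 4 * V) * q ≤ Real.exp (3 / 4 * V) * Real.exp (V / 4) := by gcongr
      _ = N := by rw [← Real.exp_add, hN]; congr 1; ring
  rw [← hN, ← hN2]
  obtain ⟨a, ha⟩ : ∃ a : ℕ, a = ⌈N / q⌉₊ := ⟨_, rfl⟩
  obtain ⟨b, hb⟩ : ∃ b : ℕ, b = ⌈N2 / q⌉₊ := ⟨_, rfl⟩
  have ha0 : 0 < a := by rw [ha]; exact Nat.ceil_pos.2 (by positivity)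
  have ha1 : N / q ≤ a := by rw [ha]; exact Nat.le_ceil _
  have ha2 : (a : ℝ) < N / q + 1 := by rw [ha]; exact Nat.ceil_lt_add_one (by positivity)
  have hb1 : N2 / q ≤ b := by rw [hb]; exact Nat.le_ceil _
  have hb2 : (b : ℝ) < N2 / q + 1 := by rw [hb]; exact Nat.ceil_lt_add_one (by positivity)
  have hab : a ≤ b := by rw [ha, hb]; exact Nat.ceil_mono (by gcongr)
  have hN2q : N2 / q ≤ 2.7182818286 * (N / q) := by
    rw [mul_div_assoc']
    gcongr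
  have hap : (0 : ℝ) < a := by exact_mod_cast ha0
  have hbp : (0 : ℝ) < b := by exact_mod_cast (lt_of_lt_of_le ha0 hab)
  have hqn : ‖(1 / (q : ℂ))‖ = 1 / (q : ℝ) := by
    rw [norm_div]; simp
  rw [← ha, ← hb, ← mul_sub, norm_mul, hqn]
  rw [div_mul_eq_mul_div, one_mul]
  apply div_le_div_of_nonneg_right _ hq0.le
  have hf1 : (1 : ℝ) ≤ (Q.factorial : ℝ) := by exact_mod_cast Nat.one_le_iff_ne_zero.mpr (Nat.factorial_ne_zero Q)
  have haf : (4 * (Q.factorial : ℝ)) ^ 2 ≤ a := hfacv.trans (hNq.trans ha1)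
  have h16 : (16 : ℝ) ≤ a := by nlinarith
  have hfac : ((2 * Q.factorial : ℕ) : ℝ) ^ 2 ≤ a := by
    refine le_trans ?_ haf
    push_cast
    nlinarith
  have hb3 : b ≤ 3 * a := by
    have : (b : ℝ) ≤ 3 * a := by nlinarith
    exact_mod_cast this
  have hτa : |τ| ≤ (a : ℝ) ^ Q := by
    calc |τ| ≤ Real.exp (3 / 4 * Q * V) := hτ
      _ = (Real.exp (3 / 4 * V)) ^ Q := by
          rw [← Real.exp_nat_mul]; congr 1; ring
      _ ≤ (a : ℝ) ^ Q := by
          apply pow_le_pow_left₀ (Real.exp_pos _).le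
          linarith
  have hp := phase_sumU Q hQ a b τ h16 hfac hab hb3 hτa
  rw [← hη'] at hp
  obtain ⟨S, hS⟩ : ∃ S : ℂ, S = ∑ m ∈ Ico a b, er τ (Real.log m) / (m : ℂ) := ⟨_, rfl⟩
  rw [← hS] at hp ⊢
  have hdecomp : er τ (Real.log q) * S - ∫ s in V..(V + 1), er τ s =
      er τ (Real.log q) * (S - ∫ s in (Real.log a)..(Real.log b), er τ s) +
      ((∫ s in (Real.log a + Real.log q)..(Real.log b + Real.log q), er τ s) -
        ∫ s in V..(V + 1), er τ s) := by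
    rw [← prog_shift]
    ring
  rw [hdecomp]
  have hlog1 : |V - (Real.log a + Real.log q)| ≤ q / N := by
    rw [← Real.log_mul hap.ne' hq0.ne']
    have e1 : V = Real.log N := by rw [hN, Real.log_exp]
    have h1 : N ≤ a * q := by
      have := ha1; rwa [div_le_iff₀ hq0] at this
    have h2 : (a : ℝ) * q ≤ N + q := by
      have : (a : ℝ) * q ≤ (N / q + 1) * q := by gcongr
      calc _ ≤ _ := this
        _ = N + q := by field_simp
    have h3 : Real.log N ≤ Real.log (a * q) := Real.log_le_log hNp h1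
    rw [e1, abs_sub_comm, abs_of_nonneg (by linarith)]
    rw [← Real.log_div (by positivity) hNp.ne']
    calc Real.log (a * q / N) ≤ a * q / N - 1 := Real.log_le_sub_one_of_pos (by positivity)
      _ ≤ (N + q) / N - 1 := by gcongr
      _ = q / N := by field_simp; ring
  have hlog2 : |V + 1 - (Real.log b + Real.log q)| ≤ q / N := by
    rw [← Real.log_mul hbp.ne' hq0.ne']
    have e1 : V + 1 = Real.log N2 := by rw [hN2, Real.log_exp]
    have h1 : N2 ≤ b * q := by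
      have := hb1; rwa [div_le_iff₀ hq0] at this
    have h2 : (b : ℝ) * q ≤ N2 + q := by
      have : (b : ℝ) * q ≤ (N2 / q + 1) * q := by gcongr
      calc _ ≤ _ := this
        _ = N2 + q := by field_simp
    have h3 : Real.log N2 ≤ Real.log (b * q) := Real.log_le_log hN2p h1
    rw [e1, abs_sub_comm, abs_of_nonneg (by linarith)]
    rw [← Real.log_div (by positivity) hN2p.ne']
    calc Real.log (b * q / N2) ≤ b * q / N2 - 1 := Real.log_le_sub_one_of_pos (by positivity)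
      _ ≤ (N2 + q) / N2 - 1 := by gcongr
      _ = q / N2 := by field_simp; ring
      _ ≤ q / N := by gcongr
  have hqN' : (q : ℝ) / N ≤ Real.exp (-(3 / 4 * V)) := by
    rw [div_le_iff₀ hNp, Real.exp_neg, ← div_eq_inv_mul, le_div_iff₀ (Real.exp_pos _), mul_comm]
    rwa [le_div_iff₀ hq0] at hNq
  have hη3 : Real.exp (-(3 / 4 * V)) ≤ Real.exp (-(3 * η' / 4 * V)) := by
    apply Real.exp_le_exp.2
    nlinarith
  have hpow : (a : ℝ) ^ (-η') ≤ Real.exp (-(3 * η' / 4 * V)) := by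
    calc (a : ℝ) ^ (-η') ≤ (Real.exp (3 / 4 * V)) ^ (-η') := by
          apply Real.rpow_le_rpow_of_nonpos (Real.exp_pos _) (by linarith) (by linarith)
      _ = Real.exp (-(3 * η' / 4 * V)) := by
          rw [← Real.exp_mul]; congr 1; ring
  calc _ ≤ ‖er τ (Real.log q) * (S - ∫ s in (Real.log a)..(Real.log b), er τ s)‖ +
        ‖(∫ s in (Real.log a + Real.log q)..(Real.log b + Real.log q), er τ s) -
        ∫ s in V..(V + 1), er τ s‖ := norm_add_le _ _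
    _ ≤ C2 * (a : ℝ) ^ (-η') + (q / N + q / N) := by
        apply add_le_add
        · rw [norm_mul, prog_er_norm, one_mul]; exact hp
        · exact (prog_int_diff _ _ _ _ _).trans (add_le_add hlog1 hlog2)
    _ ≤ C2 * Real.exp (-(3 * η' / 4 * V)) +
        (Real.exp (-(3 * η' / 4 * V)) + Real.exp (-(3 * η' / 4 * V))) := by
        gcongr
        · linarith
        · linarith
    _ = (C2 + 2) * Real.exp (-(3 * η' / 4 * V)) := by ring

end Pool.Agent.Y884.AD
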