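import Pool.Agent.H442R2.EHI.VdC
import Pool.Agent.H376R2.MR.Prog

/-!
Uniform version (in the order of the derivative test) of the bound for `∑ (u+n)^{2 π i ξ}` (helper884, job AD-PROG
of helper957; adapted from `Pool.Agent.H442R2.EHI.VdC`).
-/

set_option autoImplicit false

namespace Pool.Agent.Y884.AD

open Finset
open Pool.Agent.H469R2.NK (e norm_e e_add conj_e vdcH D D_bounds hasDerivAt_D kusmin_landau_anti
  norm_sum_neg Av Av_le Cq Cq_pos iterate harm_le alg_aux)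
open Pool.Agent.H442R2.EHI (EL SL SL_le exp_boundL)

theorem Cq_le (q : ℕ) : Cq q ≤ 16 ^ (2 ^ q) := by
  induction q with
  | zero => norm_num [Cq]
  | succ q ih =>
    have h1 : (2 : ℝ) ^ (2 ^ q) * (2 ^ (2 ^ q) + 4 ^ (2 ^ q) * Cq q) ≤
        2 ^ (2 ^ q) * (2 ^ (2 ^ q) + 4 ^ (2 ^ q) * 16 ^ (2 ^ q)) := by gcongr
    have h2 : (2 : ℝ) ^ (2 ^ q) * (2 ^ (2 ^ q) + 4 ^ (2 ^ q) * 16 ^ (2 ^ q)) =
        4 ^ (2 ^ q) + 128 ^ (2 ^ q) := by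
      rw [mul_add, ← mul_pow, ← mul_pow, ← mul_pow]
      norm_num
    have h3 : (4 : ℝ) ^ (2 ^ q) ≤ 128 ^ (2 ^ q) := pow_le_pow_left₀ (by norm_num) (by norm_num) _
    have h4 : (2 : ℝ) ≤ 2 ^ (2 ^ q) := by
      calc (2 : ℝ) = 2 ^ 1 := by norm_num
        _ ≤ 2 ^ (2 ^ q) := pow_le_pow_right₀ (by norm_num) Nat.one_le_two_pow
    have h5 : (16 : ℝ) ^ (2 ^ (q + 1)) = 2 ^ (2 ^ q) * 128 ^ (2 ^ q) := by
      rw [pow_succ, pow_mul', ← mul_pow]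
      norm_num
    have h6 : (0 : ℝ) < 128 ^ (2 ^ q) := by positivity
    rw [h5]
    show (2 : ℝ) ^ (2 ^ q) * (2 ^ (2 ^ q) + 4 ^ (2 ^ q) * Cq q) ≤ _
    have h7 : 2 * (128 : ℝ) ^ (2 ^ q) ≤ 2 ^ (2 ^ q) * 128 ^ (2 ^ q) :=
      mul_le_mul_of_nonneg_right h4 h6.le
    linarith

/-- the absolute constant -/
noncomputable def C1 : ℝ := 16 * ((2 + 6 * Real.exp 1) * (6 * Real.exp 4))

theorem C1_pos : 0 < C1 := by unfold C1; positivity

theorem K_le (Q : ℕ) : Cq Q * (2 + (2 * 3 ^ (Q + 1) / Q.factorial) * 2 ^ Q * (1 + 4 * Q) ^ Q) ≤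
    C1 ^ (2 ^ Q) := by
  have hCq := Cq_pos Q
  have h1 : ((1 : ℝ) + 4 * Q) ^ Q / Q.factorial ≤ Real.exp (1 + 4 * Q) :=
    Real.pow_div_factorial_le_exp _ (by positivity) Q
  have h2 : (2 * (3 : ℝ) ^ (Q + 1) / Q.factorial) * 2 ^ Q * (1 + 4 * Q) ^ Q =
      6 * 6 ^ Q * ((1 + 4 * Q) ^ Q / Q.factorial) := by
    have : (6 : ℝ) ^ Q = 3 ^ Q * 2 ^ Q := by rw [← mul_pow]; norm_num
    rw [this, pow_succ]
    ring
  have h3 : 6 * (6 : ℝ) ^ Q * Real.exp (1 + 4 * Q) = (6 * Real.exp 1) * (6 * Real.exp 4) ^ Q := by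
    rw [mul_pow, ← Real.exp_nat_mul, Real.exp_add]
    have : (Q : ℝ) * 4 = 4 * Q := mul_comm _ _
    rw [this]
    ring
  have h4 : (1 : ℝ) ≤ 6 * Real.exp 4 := by
    have := Real.add_one_le_exp (4 : ℝ)
    linarith
  have h5 : (1 : ℝ) ≤ (6 * Real.exp 4) ^ Q := one_le_pow₀ h4
  have h6 : (2 : ℝ) + (2 * (3 : ℝ) ^ (Q + 1) / Q.factorial) * 2 ^ Q * (1 + 4 * Q) ^ Q ≤
      (2 + 6 * Real.exp 1) * (6 * Real.exp 4) ^ Q := by
    rw [h2]
    have : 6 * (6 : ℝ) ^ Q * ((1 + 4 * Q) ^ Q / Q.factorial) ≤ 6 * 6 ^ Q * Real.exp (1 + 4 * Q) :=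
      mul_le_mul_of_nonneg_left h1 (by positivity)
    rw [h3] at this
    rw [add_mul]
    linarith
  have h7 : (1 : ℝ) ≤ 2 + 6 * Real.exp 1 := by
    have := Real.exp_pos 1
    linarith
  have h8 : Q ≤ 2 ^ Q := Nat.lt_two_pow_self.le
  have h9 : (6 * Real.exp 4) ^ Q ≤ (6 * Real.exp 4) ^ (2 ^ Q) := pow_le_pow_right₀ h4 h8
  have h10 : (2 + 6 * Real.exp 1) ≤ (2 + 6 * Real.exp 1) ^ (2 ^ Q) :=
    le_self_pow₀ h7 (by positivity)
  calc Cq Q * (2 + (2 * 3 ^ (Q + 1) / Q.factorial) * 2 ^ Q * (1 + 4 * Q) ^ Q)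
      ≤ 16 ^ (2 ^ Q) * ((2 + 6 * Real.exp 1) ^ (2 ^ Q) * (6 * Real.exp 4) ^ (2 ^ Q)) := by
        apply mul_le_mul (Cq_le Q) _ (by positivity) (by positivity)
        exact h6.trans (mul_le_mul h10 h9 (by positivity) (by positivity))
    _ = C1 ^ (2 ^ Q) := by
        rw [← mul_pow, ← mul_pow]
        rfl

/-- positive frequencies -/
theorem exp_sum_boundU (Q : ℕ) (hQ : 1 ≤ Q) (N L : ℕ) (u Z : ℝ) (h16 : (16 : ℝ) ≤ N)
      (hfac : ((2 * Q.factorial : ℕ) : ℝ) ^ 2 ≤ N) (ha : (N : ℝ) ≤ u)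
      (hL : L ≤ N) (haL : u + L ≤ 3 * N) (hZ1 : (N : ℝ) ^ (1 / 2 : ℝ) ≤ Z) (hZ2 : Z ≤ (N : ℝ) ^ Q) :
      ‖∑ n ∈ range L, e (Z * Real.log (u + n))‖ ≤
        (6 + C1) * (N : ℝ) ^ (1 - (1 / (4 * Q * 2 ^ Q) : ℝ)) := by
  set η : ℝ := 1 / (4 * Q * 2 ^ Q) with hη
  have hQ' : (1 : ℝ) ≤ Q := by exact_mod_cast hQ
  have h2Q : (1 : ℝ) ≤ 2 ^ Q := one_le_pow₀ (by norm_num)
  have hη0 : 0 < η := by rw [hη]; positivity
  have hη1 : η ≤ 1 / 4 := by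
    rw [hη, div_le_div_iff₀ (by positivity) (by norm_num)]
    nlinarith
  set K : ℝ := Cq Q * (2 + (2 * 3 ^ (Q + 1) / Q.factorial) * 2 ^ Q * (1 + 4 * Q) ^ Q) with hK
  have hCq := Cq_pos Q
  have hK0 : 0 < K := by rw [hK]; positivity
  have hC1 := C1_pos
  set C : ℝ := 6 + C1 with hC
  have hC0 : 0 < C := by rw [hC]; positivity
  have hN' : (1 : ℝ) ≤ N := by linarith
  have hN : 1 ≤ N := by exact_mod_cast hN'
  have hNpos : (0 : ℝ) < N := by linarith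
  have hC6 : 6 ≤ C := by rw [hC]; linarith
  have hCK : K ^ ((1 : ℝ) / 2 ^ Q) ≤ C := by
    have h1 : K ^ ((1 : ℝ) / 2 ^ Q) ≤ (C1 ^ (2 ^ Q)) ^ ((1 : ℝ) / 2 ^ Q) :=
      Real.rpow_le_rpow hK0.le (K_le Q) (by positivity)
    have h2 : (C1 ^ (2 ^ Q)) ^ ((1 : ℝ) / 2 ^ Q) = C1 := by
      rw [← Real.rpow_natCast, ← Real.rpow_mul hC1.le]
      push_cast
      rw [mul_one_div_cancel (by positivity), Real.rpow_one]
    rw [h2] at h1
    rw [hC]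
    linarith
  have hZ : 0 < Z := lt_of_lt_of_le (by positivity) hZ1
  have hSS : ∑ n ∈ range L, e (Z * Real.log (u + n)) = SL Z u L [] := by
    unfold SL
    simp only [List.sum_nil, Nat.sub_zero]
    rfl
  rw [hSS]
  rcases le_or_gt Z ((N : ℝ) ^ (3 / 4 : ℝ)) with hcase | hcase
  · -- direct Kusmin–Landau
    have h1 := SL_le Z hZ N u L hN ha haL [] (by simp) (by
      simp only [List.length_nil, zero_add, Nat.factorial_zero, Nat.cast_one, List.prod_nil, mul_one,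
        pow_one]
      have e1 : (2 : ℝ) ≤ (N : ℝ) ^ (1 / 4 : ℝ) := by
        calc (2 : ℝ) = (16 : ℝ) ^ (1 / 4 : ℝ) := by
              rw [show (16 : ℝ) = 2 ^ (4 : ℝ) by norm_num, ← Real.rpow_mul (by norm_num)]; norm_num
          _ ≤ _ := by gcongr
      have e2 : (N : ℝ) ^ (3 / 4 : ℝ) * (N : ℝ) ^ (1 / 4 : ℝ) = (N : ℝ) := by
        rw [← Real.rpow_add hNpos]; norm_num
      rw [mul_one_div, ← mul_div_assoc, div_le_one (by positivity)]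
      calc 2 * Z ≤ (N : ℝ) ^ (1 / 4 : ℝ) * (N : ℝ) ^ (3 / 4 : ℝ) := by gcongr
        _ = N := by rw [mul_comm]; exact e2)
    simp only [List.length_nil, zero_add, Nat.factorial_zero, Nat.cast_one, List.prod_nil, mul_one,
      pow_one] at h1
    refine h1.trans ?_
    rw [div_le_iff₀ hZ]
    have e3 : (N : ℝ) ^ (1 / 2 : ℝ) * (N : ℝ) ^ (1 / 2 : ℝ) = (N : ℝ) := by
      rw [← Real.rpow_add hNpos]; norm_num
    have e4 : (N : ℝ) ^ (1 / 2 : ℝ) ≤ (N : ℝ) ^ (1 - η) :=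
      Real.rpow_le_rpow_of_exponent_le hN' (by linarith)
    calc 2 * (3 * (N : ℝ)) = 6 * ((N : ℝ) ^ (1 / 2 : ℝ) * (N : ℝ) ^ (1 / 2 : ℝ)) := by rw [e3]; ring
      _ ≤ C * ((N : ℝ) ^ (1 - η) * Z) := by
        gcongr
      _ = _ := by ring
  · -- Weyl - van der Corput
    set h : ℝ := ((N : ℝ) ^ (Q + 1 / 2 : ℝ) / Z) ^ ((1 : ℝ) / Q) with hh
    have hhQ : h ^ Q = (N : ℝ) ^ (Q + 1 / 2 : ℝ) / Z := by
      rw [hh, ← Real.rpow_natCast, ← Real.rpow_mul (by positivity), one_div_mul_cancel (by positivity), Real.rpow_one]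
    have hh0 : 0 ≤ h := by rw [hh]; positivity
    have hlow : (N : ℝ) ^ (1 / 2 : ℝ) ≤ h ^ Q := by
      rw [hhQ, le_div_iff₀ hZ]
      calc (N : ℝ) ^ (1 / 2 : ℝ) * Z ≤ (N : ℝ) ^ (1 / 2 : ℝ) * (N : ℝ) ^ Q := by gcongr
        _ = _ := by
          rw [← Real.rpow_natCast, ← Real.rpow_add hNpos]
          congr 1; ring
    have hupp : h ^ Q ≤ (N : ℝ) ^ Q := by
      rw [hhQ, div_le_iff₀ hZ]
      calc (N : ℝ) ^ (Q + 1 / 2 : ℝ) ≤ (N : ℝ) ^ (Q + 3 / 4 : ℝ) := by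
            apply Real.rpow_le_rpow_of_exponent_le hN'; linarith
        _ = (N : ℝ) ^ Q * (N : ℝ) ^ (3 / 4 : ℝ) := by
            rw [Real.rpow_add hNpos, Real.rpow_natCast]
        _ ≤ _ := by gcongr
    have hhN : h ≤ N := le_of_pow_le_pow_left₀ (by omega) (by positivity) hupp
    have hN12 : (1 : ℝ) ≤ (N : ℝ) ^ (1 / 2 : ℝ) := Real.one_le_rpow hN' (by norm_num)
    have hh1 : 1 ≤ h := by
      by_contra hlt
      rw [not_le] at hlt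
      have : h ^ Q ≤ 1 := pow_le_one₀ hh0 hlt.le
      have h4 : (4 : ℝ) ≤ (N : ℝ) ^ (1 / 2 : ℝ) := by
        calc (4 : ℝ) = (16 : ℝ) ^ (1 / 2 : ℝ) := by
              rw [show (16 : ℝ) = 4 ^ (2 : ℝ) by norm_num, ← Real.rpow_mul (by norm_num)]; norm_num
          _ ≤ _ := by gcongr
      linarith
    set H : ℕ := ⌊h⌋₊ with hH
    have hH1 : 1 ≤ H := Nat.one_le_floor_iff _ |>.mpr hh1
    have hHle : (H : ℝ) ≤ h := Nat.floor_le hh0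
    have hHN : H ≤ N := by exact_mod_cast hHle.trans hhN
    have hHge : h / 2 ≤ H := by
      have h1 : h < H + 1 := Nat.lt_floor_add_one h
      have h2 : (1 : ℝ) ≤ H := by exact_mod_cast hH1
      linarith
    have hH1' : (1 : ℝ) ≤ H := by exact_mod_cast hH1
    have hsq : ((2 * Q.factorial : ℕ) : ℝ) ≤ (N : ℝ) ^ (1 / 2 : ℝ) := by
      rw [← Real.sqrt_eq_rpow]
      exact Real.le_sqrt_of_sq_le hfac
    have hZh : Z * h ^ Q = (N : ℝ) ^ (Q + 1 / 2 : ℝ) := by rw [hhQ]; field_simp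
    have hcond : 2 * (Z * (Q.factorial / (N : ℝ) ^ (Q + 1) * (H : ℝ) ^ Q)) ≤ 1 := by
      have e1 : (N : ℝ) ^ (Q + 1) = (N : ℝ) ^ (Q + 1 / 2 : ℝ) * (N : ℝ) ^ (1 / 2 : ℝ) := by
        rw [← Real.rpow_add hNpos, ← Real.rpow_natCast]; congr 1; push_cast; ring
      have e2 : 2 * (Z * (Q.factorial / (N : ℝ) ^ (Q + 1) * (H : ℝ) ^ Q)) =
          (2 * Q.factorial : ℕ) * (Z * (H : ℝ) ^ Q) / (N : ℝ) ^ (Q + 1) := by
        push_cast; ring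
      rw [e2, div_le_one (by positivity), e1, ← hZh]
      calc ((2 * Q.factorial : ℕ) : ℝ) * (Z * (H : ℝ) ^ Q) ≤ (N : ℝ) ^ (1 / 2 : ℝ) * (Z * h ^ Q) := by gcongr
        _ = _ := by ring
    have hb := exp_boundL Q Z hZ N u L H hN ha hL haL hH1 hHN hcond
    -- first term
    have hhlow : (N : ℝ) ^ ((1 : ℝ) / (2 * Q)) ≤ h := by
      have : ((N : ℝ) ^ ((1 : ℝ) / (2 * Q))) ^ Q ≤ h ^ Q := by
        rw [← Real.rpow_natCast, ← Real.rpow_mul (by positivity)]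
        refine le_trans (le_of_eq ?_) hlow
        congr 1; field_simp
      exact le_of_pow_le_pow_left₀ (by omega) hh0 this
    have hQpos : (0 : ℝ) < Q := by linarith
    have hterm1 : 1 / (H : ℝ) ≤ 2 * (N : ℝ) ^ (-(1 : ℝ) / (4 * Q)) := by
      have h1 : (0 : ℝ) < (N : ℝ) ^ ((1 : ℝ) / (4 * Q)) := by positivity
      have h2 : (N : ℝ) ^ ((1 : ℝ) / (4 * Q)) ≤ (N : ℝ) ^ ((1 : ℝ) / (2 * Q)) := by
        apply Real.rpow_le_rpow_of_exponent_le hN'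
        gcongr; norm_num
      rw [neg_div, Real.rpow_neg (by positivity), ← div_eq_mul_inv, div_le_div_iff₀ (by positivity) h1]
      linarith
    have hlog : 1 + Real.log H ≤ (1 + 4 * Q) * (N : ℝ) ^ ((1 : ℝ) / (4 * Q)) := by
      have h1 : Real.log H ≤ Real.log N := Real.log_le_log (by positivity) (by exact_mod_cast hHN)
      have h2 := Real.log_le_rpow_div (x := N) (ε := (1 : ℝ) / (4 * Q)) (by positivity) (by positivity)
      have h3 : (N : ℝ) ^ ((1 : ℝ) / (4 * Q)) / ((1 : ℝ) / (4 * Q)) = 4 * Q * (N : ℝ) ^ ((1 : ℝ) / (4 * Q)) := by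
        field_simp
      have h4 : (1 : ℝ) ≤ (N : ℝ) ^ ((1 : ℝ) / (4 * Q)) := Real.one_le_rpow hN' (by positivity)
      rw [h3] at h2
      nlinarith
    have hterm2 : (2 * (3 * N) ^ (Q + 1) / (Z * Q.factorial) / N) * ((∑ l ∈ Ico 1 H, (1 : ℝ) / l) / H) ^ Q ≤
        (2 * 3 ^ (Q + 1) / Q.factorial) * 2 ^ Q * (1 + 4 * Q) ^ Q * (N : ℝ) ^ (-(1 : ℝ) / (4 * Q)) := by
      have hs0 : 0 ≤ ∑ l ∈ Ico 1 H, (1 : ℝ) / l := sum_nonneg fun _ _ => by positivity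
      have h1 : ((∑ l ∈ Ico 1 H, (1 : ℝ) / l) / H) ^ Q ≤
          (((1 + 4 * Q) * (N : ℝ) ^ ((1 : ℝ) / (4 * Q))) / (h / 2)) ^ Q := by
        gcongr
        exact (harm_le H).trans hlog
      have h2 : (((1 + 4 * Q) * (N : ℝ) ^ ((1 : ℝ) / (4 * Q))) / (h / 2)) ^ Q =
          (1 + 4 * Q) ^ Q * (N : ℝ) ^ ((1 : ℝ) / 4) * 2 ^ Q / h ^ Q := by
        rw [div_pow, mul_pow, div_pow, div_div_eq_mul_div]
        congr 3
        rw [← Real.rpow_natCast, ← Real.rpow_mul (by positivity)]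
        congr 1; field_simp
      have h3 : (N : ℝ) ^ ((1 : ℝ) / 4) * (N : ℝ) ^ Q * (N : ℝ) ^ ((1 : ℝ) / (4 * Q)) ≤ Z * h ^ Q := by
        rw [hZh, ← Real.rpow_natCast, ← Real.rpow_add hNpos, ← Real.rpow_add hNpos]
        apply Real.rpow_le_rpow_of_exponent_le hN'
        have : (1 : ℝ) / (4 * Q) ≤ 1 / 4 := by
          rw [div_le_div_iff₀ (by positivity) (by norm_num)]; linarith
        linarith
      have hNQ : (0 : ℝ) < (N : ℝ) ^ ((1 : ℝ) / (4 * Q)) := by positivity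
      calc _ ≤ (2 * (3 * N) ^ (Q + 1) / (Z * Q.factorial) / N) *
            ((1 + 4 * Q) ^ Q * (N : ℝ) ^ ((1 : ℝ) / 4) * 2 ^ Q / h ^ Q) := by rw [← h2]; gcongr
        _ = (2 * 3 ^ (Q + 1) / Q.factorial) * 2 ^ Q * (1 + 4 * Q) ^ Q *
            (((N : ℝ) ^ ((1 : ℝ) / 4) * (N : ℝ) ^ Q) / (Z * h ^ Q)) := by
            rw [mul_pow, pow_succ (N : ℝ) Q]
            exact alg_aux _ _ _ _ _ _ _ _ _ hZ.ne' hNpos.ne' (by positivity) (by positivity)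
        _ ≤ _ := by
            gcongr
            rw [neg_div, Real.rpow_neg (by positivity), ← one_div, div_le_div_iff₀ (by positivity) hNQ]
            linarith
    have hfin : (‖SL Z u L []‖ / N) ^ (2 ^ Q) ≤ K * (N : ℝ) ^ (-(1 : ℝ) / (4 * Q)) := by
      refine hb.trans ?_
      calc _ ≤ Cq Q * (2 * (N : ℝ) ^ (-(1 : ℝ) / (4 * Q)) +
            (2 * 3 ^ (Q + 1) / Q.factorial) * 2 ^ Q * (1 + 4 * Q) ^ Q * (N : ℝ) ^ (-(1 : ℝ) / (4 * Q))) := by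
            gcongr
        _ = _ := by rw [hK]; ring
    have hroot : ‖SL Z u L []‖ / N ≤ K ^ ((1 : ℝ) / 2 ^ Q) * (N : ℝ) ^ (-η) := by
      have h1 : (‖SL Z u L []‖ / N) = ((‖SL Z u L []‖ / N) ^ (2 ^ Q)) ^ ((1 : ℝ) / 2 ^ Q) := by
        rw [← Real.rpow_natCast, ← Real.rpow_mul (by positivity)]
        push_cast
        rw [mul_one_div_cancel (by positivity), Real.rpow_one]
      rw [h1]
      calc _ ≤ (K * (N : ℝ) ^ (-(1 : ℝ) / (4 * Q))) ^ ((1 : ℝ) / 2 ^ Q) := by gcongr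
        _ = K ^ ((1 : ℝ) / 2 ^ Q) * (N : ℝ) ^ (-(1 : ℝ) / (4 * Q) * (1 / 2 ^ Q)) := by
            rw [Real.mul_rpow hK0.le (by positivity), ← Real.rpow_mul (by positivity)]
        _ ≤ _ := by
            gcongr
            have : -(1 : ℝ) / (4 * Q) * (1 / 2 ^ Q) = -(1 / (4 * Q * 2 ^ Q)) := by
              field_simp
            rw [this, hη]
    rw [div_le_iff₀ hNpos] at hroot
    calc ‖SL Z u L []‖ ≤ K ^ ((1 : ℝ) / 2 ^ Q) * (N : ℝ) ^ (-η) * N := hroot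
      _ ≤ C * (N : ℝ) ^ (-η) * N := by gcongr
      _ = _ := by
        rw [mul_assoc, sub_eq_neg_add, Real.rpow_add hNpos, Real.rpow_one]


/-- T3, uniform: van der Corput for `∑ (u+n)^{2 π i ξ}`. -/
theorem vdc_logU (Q : ℕ) (hQ : 1 ≤ Q) (J L : ℕ) (u ξ : ℝ) (h16 : (16 : ℝ) ≤ J)
    (hfac : ((2 * Q.factorial : ℕ) : ℝ) ^ 2 ≤ J)
    (hu : (J : ℝ) ≤ u) (hL : L ≤ J) (huL : u + L ≤ 3 * J) (h1 : (J : ℝ) ^ (1 / 2 : ℝ) ≤ |ξ|)
    (h2 : |ξ| ≤ (J : ℝ) ^ Q) :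
    ‖∑ n ∈ range L, e (ξ * Real.log (u + n))‖ ≤
      (6 + C1) * (J : ℝ) ^ (1 - (1 / (4 * Q * 2 ^ Q) : ℝ)) := by
  have h4 := exp_sum_boundU Q hQ J L u |ξ| h16 hfac hu hL huL h1 h2
  rcases le_or_gt 0 ξ with h | h
  · rwa [abs_of_nonneg h] at h4
  · rw [abs_of_neg h] at h4
    refine le_trans (le_of_eq ?_) h4
    rw [← norm_sum_neg]
    congr 1
    refine sum_congr rfl fun n _ => ?_
    congr 1; ring

end Pool.Agent.Y884.AD
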